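import Pool.Agent.Q263.DH.Def
import Pool.Agent.Q192.FT.Step

/-!
# Perturbations along the torus coordinates of a tube of class `C^r` (project DH of helper263)

Tubes of class `C^r` and a closed set `Z` disjoint from the core, after the construction of helper192
(`Pool/Agent/Q192/FT/Psi.lean`, `Conv.lean`, `Step.lean`) for smooth tubes.

Author: helper285.
-/

set_option autoImplicit false
set_option linter.unusedSectionVars false

open scoped Manifold ContDiff Topology NNReal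
open Filter Set Metric

universe u

namespace Q285.DH

open Pool.Agent.H718R2.G Pool.Agent.H728R2.OS Pool.Agent.W564.SC Pool.Agent.W683.SC
  Pool.Agent.Q192.FT

variable {n d : ℕ} {N : Type u} [TopologicalSpace N] [ChartedSpace (V n) N]

/-- an embedded `𝕋^d × ℝ^(n-d)`, of class `C^r` -/
structure TubeR (n d : ℕ) {N : Type u} [TopologicalSpace N] [ChartedSpace (V n) N] (r : ℕ∞)
    (E : V n → N) : Prop where
  chart : ∀ v, ∃ χ : OpenPartialHomeomorph N (V n), v ∈ χ.target ∧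
    (∀ w ∈ χ.target, χ.symm w = E w) ∧ ∀ y ∈ χ.source, ContMDiffAt (𝓡 n) (𝓡 n) r χ y
  smooth : ContMDiff (𝓡 n) (𝓡 n) r E
  inj : ∀ v w, E v = E w ↔ ∃ k : Fin d → ℝ, IsI k ∧ w = v + em n d k

theorem tubeR_of [IsManifold (𝓡 n) ∞ N] {r : ℕ∞} {E : V n → N} (hd : d ≤ n)
    (hE : Q263.IC.Tube n d r E) : TubeR n d r E := by
  have : IsManifold (𝓡 n) r N := IsManifold.of_le (n := ∞) (by exact_mod_cast le_top)
  refine ⟨fun v => ?_, fun v => ?_, fun v w => ?_⟩
  · obtain ⟨χ, hχ, hv, h⟩ := hE.chart v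
    exact ⟨χ, hv, h, fun y hy => contMDiffAt_of_mem_maximalAtlas hχ hy⟩
  · obtain ⟨χ, hχ, hv, h⟩ := hE.chart v
    have h1 : ContMDiffAt (𝓡 n) (𝓡 n) r χ.symm v := contMDiffAt_symm_of_mem_maximalAtlas hχ hv
    refine h1.congr_of_eventuallyEq ?_
    filter_upwards [χ.open_target.mem_nhds hv] with w hw
    exact (h w hw).symm
  · rw [hE.inj, ← pr_int_iff hd, ← qq_eq_iff]
    constructor
    · rintro ⟨h1, h2⟩
      refine ⟨_, h1, ?_⟩
      rw [map_sub]
      have e1 := em_pr_add hd v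
      have e2 := em_pr_add hd w
      rw [h2] at e2
      rw [← e2]
      conv_rhs => rw [← e1]
      rw [map_add (pr n hd), map_add (em n d), pr_em, pr_qq, map_zero, map_add (pr n hd),
        map_add (em n d), pr_em, pr_qq, map_zero]
      abel
    · rintro ⟨k, hk, rfl⟩
      rw [map_add, pr_em, add_sub_cancel_left, map_add, qq_em, add_zero]
      exact ⟨hk, rfl⟩

section tube

variable {r : ℕ∞} {E : V n → N} (hE : TubeR n d r E)

/-- an integer translate with first coordinates in the unit cube -/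
theorem translate (hd : d ≤ n) (v : V n) : ∃ k : Fin d → ℝ, IsI k ∧
    pr n hd (v + em n d k) ∈ Icc (0 : Fin d → ℝ) 1 := by
  set k : Fin d → ℝ := fun i => -((⌊pr n hd v i⌋ : ℤ) : ℝ) with hk
  have hkI : IsI k := fun i => ⟨-⌊pr n hd v i⌋, by rw [hk]; push_cast; rfl⟩
  refine ⟨k, hkI, ?_⟩
  rw [map_add, pr_em]
  have h1 : ∀ i, (pr n hd v + k) i = Int.fract (pr n hd v i) := fun i => by
    rw [Pi.add_apply, hk]
    exact (sub_eq_add_neg _ _).symm
  constructor
  · intro i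
    rw [h1]
    exact Int.fract_nonneg _
  · intro i
    rw [h1]
    exact (Int.fract_lt_one _).le

include hE in
theorem TubeR.slab_compact (hd : d ≤ n) : IsCompact (slab n d E) := by
  have hc : IsCompact {v : V n | ‖qq n d v‖ ≤ 1 ∧ pr n hd v ∈ Icc (0 : Fin d → ℝ) 1} := by
    have hcl : IsClosed {v : V n | ‖qq n d v‖ ≤ 1 ∧ pr n hd v ∈ Icc (0 : Fin d → ℝ) 1} :=
      (isClosed_le (qq n d).continuous.norm continuous_const).inter
        (isClosed_Icc.preimage (pr n hd).continuous)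
    obtain ⟨R, hR⟩ := (isCompact_Icc (a := (0 : Fin d → ℝ)) (b := 1)).isBounded.exists_norm_le
    refine Metric.isCompact_of_isClosed_isBounded hcl ?_
    refine (Metric.isBounded_closedBall (x := (0 : V n)) (r := ‖em n d‖ * R + 1)).subset ?_
    rintro v ⟨h1, h2⟩
    rw [mem_closedBall, dist_zero_right, ← em_pr_add hd v]
    refine (norm_add_le _ _).trans (add_le_add ?_ h1)
    exact ((em n d).le_opNorm _).trans (mul_le_mul_of_nonneg_left (hR _ h2) (norm_nonneg _))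
  have e : slab n d E = E '' {v : V n | ‖qq n d v‖ ≤ 1 ∧ pr n hd v ∈ Icc (0 : Fin d → ℝ) 1} := by
    apply subset_antisymm
    · rintro _ ⟨v, hv, rfl⟩
      obtain ⟨k, hkI, hk⟩ := translate hd v
      refine ⟨v + em n d k, ⟨?_, hk⟩, ((hE.inj _ _).2 ⟨k, hkI, rfl⟩).symm⟩
      rw [map_add, qq_em, add_zero]
      exact hv
    · rintro _ ⟨v, hv, rfl⟩
      exact ⟨v, hv.1, rfl⟩
  rw [e]
  exact hc.image hE.smooth.continuous

include hE in
/-- a thin slab does not meet the closed set `Z` -/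
theorem TubeR.exists_eta (hd : d ≤ n) {Z : Set N} (hZ : IsClosed Z)
    (hc : ∀ x, E (emb n d x) ∉ Z) : ∃ η : ℝ, 0 < η ∧ ∀ v, ‖qq n d v‖ ≤ η → E v ∉ Z := by
  have hO : IsOpen {v : V n | E v ∉ Z} := hZ.isOpen_compl.preimage hE.smooth.continuous
  have hK : IsCompact (em n d '' Icc (0 : Fin d → ℝ) 1) := isCompact_Icc.image (em n d).continuous
  have hKO : em n d '' Icc (0 : Fin d → ℝ) 1 ⊆ {v : V n | E v ∉ Z} := by
    rintro _ ⟨x, -, rfl⟩
    exact hc x
  obtain ⟨δ, hδ, hsub⟩ := hK.exists_thickening_subset_open hO hKO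
  refine ⟨δ / 2, by positivity, fun v hv => ?_⟩
  obtain ⟨k, hkI, hk⟩ := translate hd v
  rw [(hE.inj v (v + em n d k)).2 ⟨k, hkI, rfl⟩]
  refine hsub ?_
  rw [Metric.mem_thickening_iff]
  refine ⟨_, ⟨_, hk, rfl⟩, ?_⟩
  rw [dist_eq_norm]
  have e : v + em n d k - em n d (pr n hd (v + em n d k)) = qq n d v := by
    have h1 := em_pr_add hd (v + em n d k)
    rw [map_add (qq n d), qq_em, add_zero] at h1
    rw [sub_eq_iff_eq_add', h1]
  rw [e]
  linarith

include hE in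
theorem TubeR.psi_E {X : V n → V n} (hX : ∀ v (k : Fin d → ℝ), IsI k → X (v + em n d k) =
    X v + em n d k) (v : V n) : psi E X (E v) = E (X v) := by
  have h : ∃ w, E w = E v := ⟨v, rfl⟩
  unfold psi
  rw [dif_pos h]
  have hw := h.choose_spec
  generalize h.choose = w at hw
  obtain ⟨k, hk, rfl⟩ := (hE.inj _ _).1 hw
  rw [hX _ _ hk]
  exact (hE.inj _ _).2 ⟨k, hk, rfl⟩

include hE in
theorem TubeR.psi_out {X : V n → V n} (hX : ∀ v (k : Fin d → ℝ), IsI k → X (v + em n d k) =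
    X v + em n d k) (hX1 : ∀ v, 1 ≤ ‖qq n d v‖ → X v = v) {y : N} (hy : y ∉ slab n d E) :
    psi E X y = y := by
  by_cases h : ∃ v, E v = y
  · obtain ⟨v, rfl⟩ := h
    rw [hE.psi_E hX, hX1]
    by_contra hcon
    exact hy ⟨v, (not_le.1 hcon).le, rfl⟩
  · unfold psi
    rw [dif_neg h]

include hE in
theorem TubeR.psi_inv {X X' : V n → V n} (hX : ∀ v (k : Fin d → ℝ), IsI k →
    X (v + em n d k) = X v + em n d k) (hX' : ∀ v (k : Fin d → ℝ), IsI k →
    X' (v + em n d k) = X' v + em n d k) (hXX : ∀ v, X' (X v) = v) (y : N) :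
    psi E X' (psi E X y) = y := by
  by_cases h : ∃ v, E v = y
  · obtain ⟨v, rfl⟩ := h
    rw [hE.psi_E hX, hE.psi_E hX', hXX]
  · have h1 : psi E X y = y := by
      unfold psi
      rw [dif_neg h]
    rw [h1]
    unfold psi
    rw [dif_neg h]

include hE in
theorem TubeR.psi_smooth [T2Space N] (hd : d ≤ n) {X : V n → V n}
    (hXs : ContDiff ℝ r X) (hX : ∀ v (k : Fin d → ℝ), IsI k → X (v + em n d k) =
    X v + em n d k) (hX1 : ∀ v, 1 ≤ ‖qq n d v‖ → X v = v) :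
    ContMDiff (𝓡 n) (𝓡 n) r (psi E X) := by
  intro y
  by_cases hy : y ∈ slab n d E
  · obtain ⟨v, -, rfl⟩ := hy
    obtain ⟨χ, hv, h, hχ⟩ := hE.chart v
    have hsrc : E v ∈ χ.source := by
      rw [← h v hv]
      exact χ.map_target hv
    have hχv : χ (E v) = v := by
      rw [← h v hv, χ.right_inv hv]
    have h1 : ContMDiffAt (𝓡 n) (𝓡 n) r χ (E v) := hχ _ hsrc
    have h2 : ContMDiffAt (𝓡 n) (𝓡 n) r X (χ (E v)) := hXs.contDiffAt.contMDiffAt
    have h3 : ContMDiffAt (𝓡 n) (𝓡 n) r E (X (χ (E v))) := hE.smooth _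
    have h4 : ContMDiffAt (𝓡 n) (𝓡 n) r (E ∘ X ∘ χ) (E v) :=
      h3.comp (E v) (h2.comp (E v) h1)
    refine h4.congr_of_eventuallyEq ?_
    filter_upwards [χ.open_source.mem_nhds hsrc] with z hz
    have e : z = E (χ z) := by
      rw [← h _ (χ.map_source hz), χ.left_inv hz]
    conv_lhs => rw [e]
    rw [hE.psi_E hX]
    rfl
  · have hO : (slab n d E)ᶜ ∈ 𝓝 y := (hE.slab_compact hd).isClosed.isOpen_compl.mem_nhds hy
    refine (contMDiffAt_id (I := 𝓡 n) (x := y)).congr_of_eventuallyEq ?_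
    filter_upwards [hO] with z hz
    exact hE.psi_out hX hX1 hz

include hE in
/-- the diffeomorphism of `N` -/
theorem TubeR.exists_psi [T2Space N] {hd : d ≤ n} {u : (Fin d → ℝ) → (Fin d → ℝ)}
    {X : V n ≃ₜ V n} (hX : IsX hd r u X) (hu : ∀ x w, IsI w → u (x + w) = u x) :
    ∃ Ψ : DiffM n N r, (∀ y, Ψ y = psi E X y) ∧ ∀ y, Ψ.symm y = psi E X.symm y := by
  have a1 : ∀ v (k : Fin d → ℝ), IsI k → X (v + em n d k) = X v + em n d k :=
    fun v k hk => hX.add hu v hk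
  have a2 : ∀ v (k : Fin d → ℝ), IsI k → X.symm (v + em n d k) = X.symm v + em n d k :=
    fun v k hk => hX.add_symm hu v hk
  refine ⟨⟨⟨psi E X, psi E X.symm, ?_, ?_⟩, ?_, ?_⟩, fun y => rfl, fun y => rfl⟩
  · exact hE.psi_inv a1 a2 X.symm_apply_apply
  · exact hE.psi_inv a2 a1 X.apply_symm_apply
  · exact hE.psi_smooth hd hX.smooth a1 fun v hv => hX.out hv
  · exact hE.psi_smooth hd hX.smooth' a2 fun v hv => hX.out_symm hv

end tube

section conv

variable [T2Space N] [CompactSpace N] [IsManifold (𝓡 n) ∞ N] {hd : d ≤ n} {E : V n → N} {r : ℕ∞}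
  (hE : TubeR n d r E) {u : ℕ → (Fin d → ℝ) → (Fin d → ℝ)} {X : ℕ → (V n ≃ₜ V n)}
  (hus : ∀ m, ContDiff ℝ r (u m)) (hX : ∀ m, IsX hd r (u m) (X m))
  (hup : ∀ m x w, IsI w → u m (x + w) = u m x)
  (hu0 : ∀ j : ℕ, (j : ℕ∞) ≤ r → ∀ ε : ℝ, 0 < ε → ∀ᶠ m in atTop,
    ∀ x, ‖iteratedFDeriv ℝ j (u m) x‖ ≤ ε)

include hE hus hX hup hu0 in
theorem psi_jet (F : DiffM n N r) (Ψ : ℕ → DiffM n N r) (hΨ : ∀ m y, Ψ m y = psi E (X m) y) :
    JetTo (fun m => (Ψ m).trans F) F := by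
  intro k hk φ ψ hφ hψ s hs x x₀ hx hx₀ hw
  have hXa : ∀ m v (k : Fin d → ℝ), IsI k → X m (v + em n d k) = X m v + em n d k :=
    fun m v k hk => (hX m).add (hup m) v hk
  have hXo : ∀ m v, 1 ≤ ‖qq n d v‖ → X m v = v := fun m v hv => (hX m).out hv
  have hkr : (k : WithTop ℕ∞) ≤ r := by exact_mod_cast hk
  have hxφ : ∀ᶠ m in atTop, x m ∈ φ.source := hx.eventually (φ.open_source.mem_nhds hx₀)
  have hyt : Tendsto (fun m => φ (x m)) atTop (𝓝 (φ x₀)) := (φ.continuousAt hx₀).tendsto.comp hx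
  by_cases hK : x₀ ∈ slab n d E
  · obtain ⟨v₀, -, hv₀⟩ := hK
    obtain ⟨χ, hvt, hχE, hχ⟩ := hE.chart v₀
    have hsrc : x₀ ∈ χ.source := by
      rw [← hv₀, ← hχE v₀ hvt]
      exact χ.map_target hvt
    have hχx : χ x₀ = v₀ := by rw [← hv₀, ← hχE v₀ hvt, χ.right_inv hvt]
    have hxχ : ∀ᶠ m in atTop, x m ∈ χ.source := hx.eventually (χ.open_source.mem_nhds hsrc)
    have hχt : Tendsto (fun m => χ (x m)) atTop (𝓝 v₀) := by
      rw [← hχx]
      exact (χ.continuousAt hsrc).tendsto.comp hx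
    -- the first map
    have J1 : JetConv k (fun _ => χ ∘ φ.symm) (fun m => φ (x m)) (χ ∘ φ.symm) (φ x₀) := by
      refine jet_const hyt ?_
      have hsymm : ContMDiffAt (𝓡 n) (𝓡 n) r φ.symm (φ x₀) :=
        (contMDiffAt_symm_of_mem_maximalAtlas hφ (φ.map_source hx₀)).of_le
          (by exact_mod_cast le_top)
      have hχ' : ContMDiffAt (𝓡 n) (𝓡 n) r χ (φ.symm (φ x₀)) := by
        rw [φ.left_inv hx₀]
        exact hχ _ hsrc
      have h1 : ContDiffAt ℝ r (χ ∘ φ.symm) (φ x₀) := by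
        rw [← contMDiffAt_iff_contDiffAt]
        exact hχ'.comp (φ x₀) hsymm
      exact h1.of_le hkr
    have ept : ∀ᶠ m in atTop, (χ ∘ φ.symm) (φ (x m)) = χ (x m) := by
      filter_upwards [hxφ] with m hm
      simp only [Function.comp, φ.left_inv hm]
    have e0 : (χ ∘ φ.symm) (φ x₀) = v₀ := by
      simp only [Function.comp, φ.left_inv hx₀, hχx]
    have t1 : Tendsto (fun m => (χ ∘ φ.symm) (φ (x m))) atTop (𝓝 ((χ ∘ φ.symm) (φ x₀))) := by
      rw [e0]
      refine hχt.congr' ?_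
      filter_upwards [ept] with m hm
      exact hm.symm
    have J2 := X_jet hus hX hu0 hk hs t1
    have J12 := Pool.Agent.W917.SC.comp _ _ _ k _ _ _ _ _ _ J1 J2
    have t2 : Tendsto (fun m => ((X (s m) : V n → V n) ∘ (χ ∘ φ.symm)) (φ (x m))) atTop
        (𝓝 ((id ∘ (χ ∘ φ.symm)) (φ x₀))) := by
      have h1 := (X_tendsto hX hu0 hs (fun m => (χ ∘ φ.symm) (φ (x m)))).add t1
      rw [zero_add] at h1
      refine h1.congr fun m => ?_
      rw [sub_add_cancel]
      rfl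
    have e0' : (id ∘ (χ ∘ φ.symm)) (φ x₀) = v₀ := e0
    have hG3 : ContDiffAt ℝ k (ψ ∘ F ∘ E) ((id ∘ (χ ∘ φ.symm)) (φ x₀)) := by
      rw [e0', ← contMDiffAt_iff_contDiffAt]
      have h1 : ContMDiffAt (𝓡 n) (𝓡 n) r E v₀ := hE.smooth v₀
      have h2 : ContMDiffAt (𝓡 n) (𝓡 n) r F (E v₀) := F.contMDiff_toFun _
      have h3 : ContMDiffAt (𝓡 n) (𝓡 n) r ψ (F (E v₀)) := by
        rw [hv₀]
        exact (contMDiffAt_of_mem_maximalAtlas hψ hw).of_le (by exact_mod_cast le_top)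
      exact (h3.comp v₀ (h2.comp v₀ h1)).of_le hkr
    have J := Pool.Agent.W917.SC.comp _ _ _ k _ _ _ _ _ _ J12 (jet_const t2 hG3)
    have key : ∀ m, ∀ y ∈ χ.source, Ψ m y = E (X m (χ y)) := by
      intro m y hy
      rw [hΨ]
      have e : y = E (χ y) := by rw [← hχE _ (χ.map_source hy), χ.left_inv hy]
      conv_lhs => rw [e]
      rw [hE.psi_E (hXa m)]
    constructor
    · rw [e0'] at t2
      have c1 : ContinuousAt (fun v => F (E v)) v₀ :=
        (F.continuous.comp hE.smooth.continuous).continuousAt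
      have t3 := c1.tendsto.comp t2
      have t4 : (fun v => F (E v)) v₀ ∈ ψ.source := by
        show F (E v₀) ∈ ψ.source
        rw [hv₀]
        exact hw
      have h4 := t3.eventually (ψ.open_source.mem_nhds t4)
      filter_upwards [h4, hxχ, ept] with m h5 h6 h7
      show F (Ψ (s m) (x m)) ∈ ψ.source
      rw [key _ _ h6, ← h7]
      exact h5
    · intro j hj
      have hc := J.conv j hj
      have e3 : iteratedFDeriv ℝ j ((ψ ∘ F ∘ E) ∘ (id ∘ (χ ∘ φ.symm))) (φ x₀) =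
          iteratedFDeriv ℝ j (ψ ∘ F ∘ φ.symm) (φ x₀) := by
        refine (Filter.EventuallyEq.iteratedFDeriv ℝ ?_ j).eq_of_nhds
        have c2 : ∀ᶠ y in 𝓝 (φ x₀), φ.symm y ∈ χ.source := by
          refine (φ.continuousAt_symm (φ.map_source hx₀)).eventually
            (χ.open_source.mem_nhds ?_)
          rw [φ.left_inv hx₀]
          exact hsrc
        filter_upwards [c2] with y hy
        simp only [Function.comp, id]
        rw [← hχE _ (χ.map_source hy), χ.left_inv hy]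
      rw [e3] at hc
      refine hc.congr' ?_
      filter_upwards [hxχ, hxφ] with m hm hm'
      refine (Filter.EventuallyEq.iteratedFDeriv ℝ ?_ j).eq_of_nhds
      have c2 : ∀ᶠ y in 𝓝 (φ (x m)), φ.symm y ∈ χ.source := by
        refine (φ.continuousAt_symm (φ.map_source hm')).eventually
          (χ.open_source.mem_nhds ?_)
        rw [φ.left_inv hm']
        exact hm
      filter_upwards [c2] with y hy
      show ψ (F (E (X (s m) (χ (φ.symm y))))) = ψ (F (Ψ (s m) (φ.symm y)))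
      rw [key _ _ hy]
  · -- outside
    have hO : (slab n d E)ᶜ ∈ 𝓝 x₀ := (hE.slab_compact hd).isClosed.isOpen_compl.mem_nhds hK
    have hid : ∀ m, ∀ y ∉ slab n d E, Ψ m y = y := fun m y hy => by
      rw [hΨ]
      exact hE.psi_out (hXa m) (hXo m) hy
    have hxO : ∀ᶠ m in atTop, x m ∈ (slab n d E)ᶜ := hx.eventually hO
    have hFψ : ∀ᶠ m in atTop, F (x m) ∈ ψ.source :=
      ((F.continuous.tendsto x₀).comp hx).eventually (ψ.open_source.mem_nhds hw)
    constructor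
    · filter_upwards [hxO, hFψ] with m h1 h2
      show F (Ψ (s m) (x m)) ∈ ψ.source
      rw [hid _ _ h1]
      exact h2
    · intro j hj
      have hc := (jet_const hyt ((cda F hφ hψ hx₀ hw).of_le hkr)).conv j hj
      refine hc.congr' ?_
      filter_upwards [hxO, hxφ] with m hm hm'
      refine (Filter.EventuallyEq.iteratedFDeriv ℝ ?_ j).eq_of_nhds
      have c2 : ∀ᶠ y in 𝓝 (φ (x m)), φ.symm y ∈ (slab n d E)ᶜ := by
        refine (φ.continuousAt_symm (φ.map_source hm')).eventually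
          ((hE.slab_compact hd).isClosed.isOpen_compl.mem_nhds ?_)
        rw [φ.left_inv hm']
        exact hm
      filter_upwards [c2] with y hy
      show ψ (F (φ.symm y)) = ψ (F (Ψ (s m) (φ.symm y)))
      rw [hid _ _ hy]

include hE in
theorem pert_tube (hr : 1 ≤ r) {f : Torus d ≃ₜ Torus d} {P : (Torus d ≃ₜ Torus d) → Prop}
    (hA : Approx r f P) (F : DiffM n N r) (U : Set (DiffM n N r))
    (hU : IsOpen[strongTop n N r] U) (hFU : F ∈ U) {ε : ℝ} (hε : 0 < ε) :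
    ∃ (u : (Fin d → ℝ) → (Fin d → ℝ)) (X : V n ≃ₜ V n) (g : Torus d ≃ₜ Torus d)
      (Ψ : DiffM n N r), ContDiff ℝ r u ∧ (∀ x, ‖u x‖ ≤ ε) ∧
      (∀ x w, IsI w → u (x + w) = u x) ∧ IsX hd r u X ∧ P g ∧
      (∀ x, g (toTorus x) = f (toTorus (x + u x))) ∧ (∀ y, Ψ y = psi E X y) ∧
      Ψ.trans F ∈ U := by
  obtain ⟨k, hk1, hk2, hk3⟩ := kseq r hr
  obtain ⟨c, hc, hX⟩ := exists_X (n := n) hd hr
  have hpos : ∀ m : ℕ, 0 < min c (1 / ((m : ℝ) + 1)) := fun m => lt_min hc (by positivity)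
  choose u g hus hup hP hg hub using fun m : ℕ => disp hA (hk1 m) (hpos m)
  choose X hX using fun m => hX (u m) (hus m) fun j hj x =>
    (hub m j (hj.trans (hk2 m)) x).trans (min_le_left _ _)
  choose Ψ hΨ hΨ' using fun m => hE.exists_psi (hX m) (hup m)
  have hu0 : ∀ j : ℕ, (j : ℕ∞) ≤ r → ∀ ε : ℝ, 0 < ε → ∀ᶠ m in atTop,
      ∀ x, ‖iteratedFDeriv ℝ j (u m) x‖ ≤ ε := by
    intro j hj ε hε
    have h1 : ∀ᶠ m : ℕ in atTop, (1 : ℝ) / ((m : ℝ) + 1) < ε :=
      (tendsto_one_div_add_atTop_nhds_zero_nat (𝕜 := ℝ)).eventually (gt_mem_nhds hε)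
    filter_upwards [h1, hk3 j hj] with m hm hm' x
    exact (hub m j hm' x).trans ((min_le_right _ _).trans hm.le)
  obtain ⟨m, hm, hm'⟩ := ((seq_mem (psi_jet hE hus hX hup hu0 F Ψ hΨ) U hU hFU).and
    (hu0 0 (by simp) ε hε)).exists
  refine ⟨u m, X m, g m, Ψ m, hus m, fun x => ?_, hup m, hX m, hP m, hg m, hΨ m, hm⟩
  have := hm' x
  rwa [norm_iteratedFDeriv_zero] at this

end conv

/-! ### rescaling -/

/-- multiplication of the last coordinates by `η` -/
noncomputable def sc (hd : d ≤ n) (η : ℝ) : V n →L[ℝ] V n :=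
  (em n d).comp (pr n hd) + η • qq n d

theorem sc_apply (hd : d ≤ n) (η : ℝ) (v : V n) :
    sc hd η v = em n d (pr n hd v) + η • qq n d v := rfl

theorem pr_sc (hd : d ≤ n) (η : ℝ) (v : V n) : pr n hd (sc hd η v) = pr n hd v := by
  rw [sc_apply, map_add, pr_em, map_smul, pr_qq, smul_zero, add_zero]

theorem qq_sc (hd : d ≤ n) (η : ℝ) (v : V n) : qq n d (sc hd η v) = η • qq n d v := by
  rw [sc_apply, map_add, qq_em, zero_add, map_smul, qq_qq]

theorem sc_sc (hd : d ≤ n) {η θ : ℝ} (h : η * θ = 1) (v : V n) : sc hd η (sc hd θ v) = v := by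
  rw [sc_apply, pr_sc, qq_sc, smul_smul, h, one_smul, em_pr_add]

theorem sc_em (hd : d ≤ n) (η : ℝ) (x : Fin d → ℝ) : sc hd η (em n d x) = em n d x := by
  rw [sc_apply, pr_em, qq_em, smul_zero, add_zero]

/-- multiplication of the last coordinates by `η`, as a homeomorphism -/
noncomputable def scH (hd : d ≤ n) (η : ℝ) (hη : η ≠ 0) : V n ≃ₜ V n where
  toFun := sc hd η
  invFun := sc hd η⁻¹
  left_inv := sc_sc hd (inv_mul_cancel₀ hη)
  right_inv := sc_sc hd (mul_inv_cancel₀ hη)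
  continuous_toFun := (sc hd η).continuous
  continuous_invFun := (sc hd η⁻¹).continuous

theorem TubeR.scale {r : ℕ∞} {E : V n → N} (hE : TubeR n d r E) (hd : d ≤ n) {η : ℝ}
    (hη : η ≠ 0) : TubeR n d r (fun v => E (sc hd η v)) := by
  refine ⟨fun v => ?_, ?_, fun v w => ?_⟩
  · obtain ⟨χ, hv, h, hχ⟩ := hE.chart (sc hd η v)
    refine ⟨χ.transHomeomorph (scH hd η hη).symm, hv, fun w hw => h _ hw, fun y hy => ?_⟩
    exact ((sc hd η⁻¹).contDiff.contDiffAt.contMDiffAt).comp y (hχ y hy)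
  · exact hE.smooth.comp (sc hd η).contDiff.contMDiff
  · show E (sc hd η v) = E (sc hd η w) ↔ _
    rw [hE.inj]
    refine exists_congr fun k => and_congr_right fun _ => ⟨fun h => ?_, fun h => ?_⟩
    · have h1 := congrArg (sc hd η⁻¹) h
      rw [map_add, sc_sc hd (inv_mul_cancel₀ hη), sc_sc hd (inv_mul_cancel₀ hη), sc_em] at h1
      exact h1
    · rw [h, map_add, sc_em]

/-- **PERT**: small perturbations along a tube of class `C^r`. -/
theorem pert : Q263.DH.S_PERT.{u} := by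
  intro n d N _ _ _ _ _ r hr hd E hE₀ f P hA F U hU hFU Z hZ hZc ε hε
  have hE := tubeR_of hd hE₀
  obtain ⟨η, hη, hηZ⟩ := hE.exists_eta hd hZ hZc
  have hη0 : η ≠ 0 := hη.ne'
  have hE' := hE.scale hd hη0
  obtain ⟨u, X, g, Ψ, hus, hub, hup, hX, hP, hg, hΨ, hmem⟩ :=
    pert_tube (hd := hd) hE' hr hA F U hU hFU hε
  have hXa : ∀ v (k : Fin d → ℝ), IsI k → X (v + em n d k) = X v + em n d k :=
    fun v k hk => hX.add hup v hk
  have hXo : ∀ v, 1 ≤ ‖qq n d v‖ → X v = v := fun v hv => hX.out hv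
  refine ⟨fun v => bmp n (η⁻¹ • qq n d v) • u (pr n hd v), g, Ψ, ?_, fun v => ?_, hP,
    fun x => ?_, fun v => ?_, fun y hy => ?_, hmem⟩
  · have h1 : ContDiff ℝ 1 fun v : V n => bmp n (η⁻¹ • qq n d v) :=
      ((bmp n).contDiff (n := 1)).comp (((qq n d).contDiff (n := 1)).const_smul η⁻¹)
    have h2 : ContDiff ℝ 1 fun v : V n => u (pr n hd v) :=
      (hus.of_le (by exact_mod_cast hr)).comp (pr n hd).contDiff
    exact h1.smul h2
  · show ‖bmp n (η⁻¹ • qq n d v) • u (pr n hd v)‖ ≤ ε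
    rw [norm_smul, Real.norm_eq_abs, abs_of_nonneg (bmp n).nonneg]
    calc bmp n (η⁻¹ • qq n d v) * ‖u (pr n hd v)‖ ≤ 1 * ‖u (pr n hd v)‖ :=
          mul_le_mul_of_nonneg_right (bmp n).le_one (norm_nonneg _)
      _ ≤ ε := by rw [one_mul]; exact hub _
  · rw [hg]
    show _ = f (toTorus (x + bmp n (η⁻¹ • qq n d (emb n d x)) • u (pr n hd (emb n d x))))
    rw [← em_apply, qq_em, smul_zero, bmp_zero, one_smul, pr_em]
  · have e1 : E v = E (sc hd η (sc hd η⁻¹ v)) := by rw [sc_sc hd (mul_inv_cancel₀ hη0)]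
    have e2 : psi (fun v => E (sc hd η v)) X (E (sc hd η (sc hd η⁻¹ v))) =
        E (sc hd η (X (sc hd η⁻¹ v))) := hE'.psi_E hXa (sc hd η⁻¹ v)
    rw [hΨ]
    conv_lhs => rw [e1]
    rw [e2, hX.eq, map_add, sc_sc hd (mul_inv_cancel₀ hη0)]
    unfold Yu
    rw [map_smul, sc_em, pr_sc, qq_sc]
    show E (v + _) = E (v + em n d (bmp n (η⁻¹ • qq n d v) • u (pr n hd v)))
    rw [map_smul]
  · rw [hΨ]
    refine hE'.psi_out hXa hXo ?_
    rintro ⟨v, hv, rfl⟩
    refine hηZ (sc hd η v) ?_ hy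
    rw [qq_sc, norm_smul, Real.norm_eq_abs, abs_of_pos hη]
    have : ‖qq n d v‖ ≤ 1 := hv
    nlinarith

end Q285.DH
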